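import Pool.Agent.H28.LF.F1

/-!
Project LF: the sums up to `N` with arbitrary weights.
-/

set_option autoImplicit false

open Finset

namespace Pool.Agent.H62.LF

open Pool.Agent.H28.LF

lemma Icc_eq (N : ℕ) : Icc 1 N = Ico 1 (N + 1) := by
  ext n
  simp only [mem_Icc, mem_Ico]
  omega

/-- one shift -/
lemma shift_sum (v : ℕ → ℂ) (N h : ℕ) (hh : 1 ≤ h) (hv : ∀ n, N < n → v n = 0) :
    ∑ n ∈ Icc 1 N, v n = ∑ m ∈ range N, v (m + h) + ∑ n ∈ Ico 1 h, v n := by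
  have h1 : ∑ m ∈ range N, v (m + h) = ∑ n ∈ Ico h (N + h), v n := by
    rw [range_eq_Ico, sum_Ico_add' v 0 N h, zero_add]
  have h2 : ∑ n ∈ Ico 1 h, v n + ∑ n ∈ Ico h (N + h), v n = ∑ n ∈ Ico 1 (N + h), v n :=
    sum_Ico_consecutive v hh (by omega)
  have h3 : ∑ n ∈ Ico 1 (N + 1), v n + ∑ n ∈ Ico (N + 1) (N + h), v n =
      ∑ n ∈ Ico 1 (N + h), v n := sum_Ico_consecutive v (by omega) (by omega)
  have h4 : ∑ n ∈ Ico (N + 1) (N + h), v n = 0 := by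
    refine sum_eq_zero fun n hn => hv n ?_
    rw [mem_Ico] at hn
    omega
  rw [Icc_eq, h1, add_comm (∑ n ∈ Ico h (N + h), v n), h2, ← h3, h4, add_zero]

/-- averaging over the shifts -/
lemma avg_shift (v : ℕ → ℂ) (N K : ℕ) (hK : 0 < K) (hv : ∀ n, N < n → v n = 0)
    (hb : ∀ n, ‖v n‖ ≤ 1) :
    ‖∑ n ∈ Icc 1 N, v n‖ ≤ K + ∑ m ∈ range N, ‖(∑ h ∈ Icc 1 K, v (m + h)) / K‖ := by
  have hK' : (0 : ℝ) < K := by exact_mod_cast hK
  have hKC : (K : ℂ) ≠ 0 := by exact_mod_cast hK.ne'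
  have h1 : (K : ℂ) * ∑ n ∈ Icc 1 N, v n =
      ∑ m ∈ range N, ∑ h ∈ Icc 1 K, v (m + h) + ∑ h ∈ Icc 1 K, ∑ n ∈ Ico 1 h, v n := by
    rw [sum_comm, ← sum_add_distrib]
    rw [← sum_congr rfl fun h hh => shift_sum v N h (mem_Icc.mp hh).1 hv]
    rw [sum_const, Nat.card_Icc, nsmul_eq_mul]
    congr 2
  have h2 : ∑ n ∈ Icc 1 N, v n = ∑ m ∈ range N, (∑ h ∈ Icc 1 K, v (m + h)) / K +
      (∑ h ∈ Icc 1 K, ∑ n ∈ Ico 1 h, v n) / K := by
    rw [← sum_div, ← add_div, ← h1, mul_div_cancel_left₀ _ hKC]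
  rw [h2]
  have h3 : ‖(∑ h ∈ Icc 1 K, ∑ n ∈ Ico 1 h, v n) / K‖ ≤ K := by
    rw [norm_div, Complex.norm_natCast, div_le_iff₀ hK']
    refine (norm_sum_le _ _).trans ?_
    have h4 : ∀ h ∈ Icc 1 K, ‖∑ n ∈ Ico 1 h, v n‖ ≤ K := by
      intro h hh
      refine (norm_sum_le _ _).trans ?_
      refine (sum_le_sum fun n _ => hb n).trans ?_
      rw [sum_const, Nat.card_Ico, nsmul_eq_mul, mul_one]
      have := (mem_Icc.mp hh).2
      exact_mod_cast (by omega : h - 1 ≤ K)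
    refine (sum_le_sum h4).trans ?_
    rw [sum_const, Nat.card_Icc, nsmul_eq_mul]
    simp
  calc _ ≤ ‖∑ m ∈ range N, (∑ h ∈ Icc 1 K, v (m + h)) / (K : ℂ)‖ +
        ‖(∑ h ∈ Icc 1 K, ∑ n ∈ Ico 1 h, v n) / (K : ℂ)‖ := norm_add_le _ _
    _ ≤ ∑ m ∈ range N, ‖(∑ h ∈ Icc 1 K, v (m + h)) / (K : ℂ)‖ + K :=
        add_le_add (norm_sum_le _ _) h3
    _ = _ := add_comm _ _

lemma norm_Fk (u : Bool × Bool → ℂ) (hu : ∀ b, ‖u b‖ = 1) (k n : ℕ) : ‖Fk u k n‖ = 1 := by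
  unfold Fk
  rw [norm_prod]
  exact prod_eq_one fun i _ => hu _

/-- the bound for one `N` -/
lemma one_N (h1 : T_CR1) (u : Bool × Bool → ℂ) (hu : ∀ b, ‖u b‖ = 1) (K N : ℕ) (hK : 0 < K)
    (w : ℕ → ℂ) (hw : ∀ n, ‖w n‖ ≤ 1) :
    ∑ k ∈ Icc 1 K, ‖∑ n ∈ Icc 1 N, w n * Fk u k n‖ ≤
      K * (K + 2 * ∑ m ∈ range N, SB u (2 * K) m) := by
  have hK' : (0 : ℝ) < K := by exact_mod_cast hK
  let w' : ℕ → ℂ := fun n => if n ≤ N then w n else 0
  have hw' : ∀ n, ‖w' n‖ ≤ 1 := by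
    intro n
    by_cases hn : n ≤ N
    · simp only [w', if_pos hn]
      exact hw n
    · simp only [w', if_neg hn, norm_zero]
      exact zero_le_one
  have hk : ∀ k, ‖∑ n ∈ Icc 1 N, w n * Fk u k n‖ ≤
      K + ∑ m ∈ range N, ‖(∑ h ∈ Icc 1 K, w' (m + h) * Fk u k (m + h)) / K‖ := by
    intro k
    have h2 : ∑ n ∈ Icc 1 N, w n * Fk u k n = ∑ n ∈ Icc 1 N, w' n * Fk u k n := by
      refine sum_congr rfl fun n hn => ?_
      simp only [w', if_pos (mem_Icc.mp hn).2]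
    rw [h2]
    refine avg_shift (fun n => w' n * Fk u k n) N K hK (fun n hn => ?_) (fun n => ?_)
    · simp only [w', if_neg (not_le.mpr hn), zero_mul]
    · rw [norm_mul, norm_Fk u hu, mul_one]
      exact hw' n
  refine (sum_le_sum fun k _ => hk k).trans ?_
  rw [sum_add_distrib, sum_const, Nat.card_Icc, nsmul_eq_mul, sum_comm, mul_add]
  refine add_le_add (by simp) ?_
  rw [mul_sum, mul_sum]
  refine sum_le_sum fun m _ => ?_
  have h3 := h1 u hu K m (fun h => w' (m + h)) hK (fun h => hw' _)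
  rw [div_le_iff₀ hK'] at h3
  linarith

lemma sum_inv_sq (x y : ℕ) (hx : 0 < x) :
    ∑ N ∈ Icc x y, (((N : ℝ)) ^ 2)⁻¹ ≤ 2 / x := by
  have h := sum_Ioo_inv_sq_le (α := ℝ) (x - 1) (y + 1)
  have h2 : Ioo (x - 1) (y + 1) = Icc x y := by
    ext n
    simp only [mem_Ioo, mem_Icc]
    omega
  rw [h2] at h
  refine h.trans (le_of_eq ?_)
  rw [Nat.cast_sub hx]
  simp

/-- the double sum -/
lemma double_sum (a : ℕ → ℝ) (ha : ∀ n, 0 ≤ a n) (ha1 : ∀ n, a n ≤ 1) (x y : ℕ) (hx : 0 < x) :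
    ∑ N ∈ Icc x y, (((N : ℝ)) ^ 2)⁻¹ * ∑ m ∈ range N, a m ≤ 2 + ∑ m ∈ Icc x y, a m / m := by
  have hx' : (0 : ℝ) < x := by exact_mod_cast hx
  have h1 : ∀ N ∈ Icc x y, (((N : ℝ)) ^ 2)⁻¹ * ∑ m ∈ range N, a m ≤
      (((N : ℝ)) ^ 2)⁻¹ * x + ∑ m ∈ Icc x y, if m < N then (((N : ℝ)) ^ 2)⁻¹ * a m else 0 := by
    intro N hN
    rw [mem_Icc] at hN
    have h2 : ∑ m ∈ range N, a m = ∑ m ∈ range x, a m + ∑ m ∈ Ico x N, a m := by
      rw [range_eq_Ico, range_eq_Ico]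
      exact (sum_Ico_consecutive a (Nat.zero_le x) hN.1).symm
    rw [h2, mul_add]
    have hp : (0 : ℝ) ≤ (((N : ℝ)) ^ 2)⁻¹ := by positivity
    refine add_le_add (mul_le_mul_of_nonneg_left ?_ hp) ?_
    · refine (sum_le_sum fun m _ => ha1 m).trans (le_of_eq ?_)
      simp
    · rw [mul_sum, ← sum_filter]
      refine sum_le_sum_of_subset_of_nonneg ?_ fun m _ _ => mul_nonneg hp (ha m)
      intro m hm
      rw [mem_Ico] at hm
      rw [mem_filter, mem_Icc]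
      omega
  refine (sum_le_sum h1).trans ?_
  rw [sum_add_distrib, ← sum_mul]
  refine add_le_add ?_ ?_
  · refine (mul_le_mul_of_nonneg_right (sum_inv_sq x y hx) hx'.le).trans (le_of_eq ?_)
    field_simp
  · rw [sum_comm]
    refine sum_le_sum fun m hm => ?_
    rw [mem_Icc] at hm
    have hm0 : m ≠ 0 := by omega
    rw [← sum_filter, ← sum_mul]
    have h3 : (Icc x y).filter (fun N => m < N) ⊆ Ioc m y := by
      intro N hN
      rw [mem_filter, mem_Icc] at hN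
      rw [mem_Ioc]
      omega
    have h4 : ∑ N ∈ (Icc x y).filter (fun N => m < N), (((N : ℝ)) ^ 2)⁻¹ ≤ (m : ℝ)⁻¹ := by
      refine (sum_le_sum_of_subset_of_nonneg h3 fun _ _ _ => by positivity).trans ?_
      refine (sum_Ioc_inv_sq_le_sub (α := ℝ) hm0 hm.2).trans ?_
      have : (0 : ℝ) ≤ (y : ℝ)⁻¹ := by positivity
      linarith
    refine (mul_le_mul_of_nonneg_right h4 (ha m)).trans (le_of_eq ?_)
    rw [div_eq_mul_inv, mul_comm]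

/-- **CR3** -/
theorem pf_CR3 (h1 : T_CR1) (hS : T_SBX) : T_CR3 := by
  intro u hu hU ε hε
  obtain ⟨K₁, hK₁⟩ := hU (ε / 4) (by positivity)
  refine ⟨max K₁ 1, fun K hK => ?_⟩
  have hK0 : 0 < K := lt_of_lt_of_le one_pos ((le_max_right K₁ 1).trans hK)
  have hK' : (0 : ℝ) < K := by exact_mod_cast hK0
  obtain ⟨C₁, hC₁⟩ := hK₁ (2 * K) (by have := (le_max_left K₁ 1).trans hK; omega)
  obtain ⟨C₂, hC₂⟩ := exists_nat_ge (Real.exp ((4 * K + 8) / ε))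
  refine ⟨max C₁ C₂, fun x y w hx hxy hw => ?_⟩
  have hx' : (0 : ℝ) < x := by exact_mod_cast hx
  have hb := fun n => hS u hu.1 (2 * K) n
  have hT := hC₁ x y hx ((Nat.mul_le_mul_right x (le_max_left C₁ C₂)).trans hxy)
  have hlog : (4 * K + 8) / ε ≤ Real.log ((y : ℝ) / x) := by
    have h2 : Real.exp ((4 * K + 8) / ε) ≤ (y : ℝ) / x := by
      rw [le_div_iff₀ hx']
      have h3 : ((C₂ * x : ℕ) : ℝ) ≤ y := by
        exact_mod_cast (Nat.mul_le_mul_right x (le_max_right C₁ C₂)).trans hxy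
      rw [Nat.cast_mul] at h3
      exact (mul_le_mul_of_nonneg_right hC₂ hx'.le).trans h3
    have h4 := Real.log_le_log (Real.exp_pos _) h2
    rwa [Real.log_exp] at h4
  have hN : ∀ N ∈ Icc x y, (1 / (N : ℝ)) *
      ((∑ k ∈ Icc 1 K, ‖(∑ n ∈ Icc 1 N, w N n * Fk u k n) / N‖) / K) ≤
      (((N : ℝ)) ^ 2)⁻¹ * K + 2 * ((((N : ℝ)) ^ 2)⁻¹ * ∑ m ∈ range N, SB u (2 * K) m) := by
    intro N hN
    have hN0 : (0 : ℝ) < N := by
      have := (mem_Icc.mp hN).1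
      exact_mod_cast (by omega : 0 < N)
    have h2 := one_N h1 u hu.1 K N hK0 (w N) (hw N)
    have h3 : ∑ k ∈ Icc 1 K, ‖(∑ n ∈ Icc 1 N, w N n * Fk u k n) / (N : ℂ)‖ =
        (∑ k ∈ Icc 1 K, ‖∑ n ∈ Icc 1 N, w N n * Fk u k n‖) / N := by
      rw [sum_div]
      exact sum_congr rfl fun k _ => by rw [norm_div, Complex.norm_natCast]
    rw [h3]
    have h4 : (1 / (N : ℝ)) * ((∑ k ∈ Icc 1 K, ‖∑ n ∈ Icc 1 N, w N n * Fk u k n‖) / N / K) =
        (((N : ℝ)) ^ 2)⁻¹ * ((∑ k ∈ Icc 1 K, ‖∑ n ∈ Icc 1 N, w N n * Fk u k n‖) / K) := by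
      field_simp
    rw [h4]
    have h5 : (∑ k ∈ Icc 1 K, ‖∑ n ∈ Icc 1 N, w N n * Fk u k n‖) / K ≤
        K + 2 * ∑ m ∈ range N, SB u (2 * K) m := by
      rw [div_le_iff₀ hK', mul_comm]
      exact h2
    refine (mul_le_mul_of_nonneg_left h5 (by positivity)).trans (le_of_eq ?_)
    ring
  refine (sum_le_sum hN).trans ?_
  rw [sum_add_distrib, ← sum_mul, ← mul_sum]
  have h6 := double_sum (fun m => SB u (2 * K) m) (fun n => (hb n).2.1) (fun n => (hb n).2.2.1)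
    x y hx
  have h7 : (∑ N ∈ Icc x y, (((N : ℝ)) ^ 2)⁻¹) * K ≤ 2 * K := by
    refine mul_le_mul_of_nonneg_right ((sum_inv_sq x y hx).trans ?_) hK'.le
    rw [div_le_iff₀ hx']
    have : (1 : ℝ) ≤ x := by exact_mod_cast hx
    linarith
  have h8 : 2 * (K : ℝ) + 4 ≤ ε / 2 * Real.log ((y : ℝ) / x) := by
    have h9 := mul_le_mul_of_nonneg_left hlog (by positivity : (0 : ℝ) ≤ ε / 2)
    have h10 : ε / 2 * ((4 * K + 8) / ε) = 2 * K + 4 := by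
      field_simp
      ring
    rwa [h10] at h9
  have h11 : ∑ m ∈ Icc x y, SB u (2 * K) m / m ≤ ε / 4 * Real.log ((y : ℝ) / x) := hT
  linarith

end Pool.Agent.H62.LF
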